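import Mathlib

/-!
# The approximation ratio of the k-lookahead auction does not tend to one

For every `k ≥ 2` the approximation ratio of the `k`-lookahead auction is at most `4/5`.
-/

set_option autoImplicit false

namespace Pool.Agent.Results.MP_0f9109_lc.LookaheadRatio

open Finset Filter Topology

/-- A mechanism for the set `ι` of bidders: allocation probabilities and expected payments, as
functions of the vector of bids. -/
structure Mechanism (ι : Type) where
  alloc : (ι → ℝ) → ι → ℝ
  pay : (ι → ℝ) → ι → ℝ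

/-- Feasible, truthful in expectation and individually rational mechanisms. -/
structure Mechanism.Valid {ι : Type} [Fintype ι] [DecidableEq ι] (M : Mechanism ι) : Prop where
  alloc_nonneg : ∀ v : ι → ℝ, (∀ i, 0 < v i) → ∀ i, 0 ≤ M.alloc v i
  alloc_sum : ∀ v : ι → ℝ, (∀ i, 0 < v i) → ∑ i, M.alloc v i ≤ 1
  truthful : ∀ v : ι → ℝ, (∀ i, 0 < v i) → ∀ i, ∀ t : ℝ, 0 < t →
    M.alloc (Function.update v i t) i * v i - M.pay (Function.update v i t) i
      ≤ M.alloc v i * v i - M.pay v i
  rational : ∀ v : ι → ℝ, (∀ i, 0 < v i) → ∀ i, 0 ≤ M.alloc v i * v i - M.pay v i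

/-- Finitely supported probability distributions on the positive valuation vectors. -/
structure IsDist {ι : Type} (D : (ι → ℝ) →₀ ℝ) : Prop where
  nonneg : ∀ v, 0 ≤ D v
  total : D.sum (fun _ w => w) = 1
  positive : ∀ v ∈ D.support, ∀ i, 0 < v i

/-- The expected value of `f` under `D`. -/
noncomputable def expect {ι : Type} (D : (ι → ℝ) →₀ ℝ) (f : (ι → ℝ) → ℝ) : ℝ :=
  D.sum fun v w => w * f v

/-- The optimal expected revenue. -/
noncomputable def OPT {n : ℕ} (D : (Fin n → ℝ) →₀ ℝ) : ℝ :=
  sSup {r | ∃ M : Mechanism (Fin n), M.Valid ∧ r = expect D (fun v => ∑ i, M.pay v i)}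

/-- Bidder `j` is ranked before bidder `i`: higher value, ties broken by index. -/
def Before {n : ℕ} (v : Fin n → ℝ) (j i : Fin n) : Prop := v i < v j ∨ (v j = v i ∧ j < i)

open Classical in
/-- The set of the `k` highest bidders (all bidders, if there are at most `k`). -/
noncomputable def top (k : ℕ) {n : ℕ} (v : Fin n → ℝ) : Finset (Fin n) :=
  Finset.univ.filter fun i => (Finset.univ.filter fun j => Before v j i).card < k

/-- The event on which the distribution `D_K` is conditioned: the bidders outside `K` have the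
values `u`, and no bidder of `K` has a value below the highest of them. -/
def Event {n : ℕ} (K : Finset (Fin n)) (u : {j // j ∉ K} → ℝ) (v : Fin n → ℝ) : Prop :=
  (∀ j : {j // j ∉ K}, v j = u j) ∧ ∀ i ∈ K, ∀ j ∉ K, v j ≤ v i

open Classical in
/-- The expected revenue on the event `Event K u` of a mechanism for the bidders in `K`. -/
noncomputable def revOn {n : ℕ} (D : (Fin n → ℝ) →₀ ℝ) (K : Finset (Fin n))
    (u : {j // j ∉ K} → ℝ) (M : Mechanism {i // i ∈ K}) : ℝ :=
  expect D fun v => if Event K u v then ∑ i : {i // i ∈ K}, M.pay (fun i => v i) i else 0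

/-- The rule `A` chooses, for each set `K` and each vector `u` of values of the bidders outside
`K`, a mechanism for `K` that maximises the conditional expected revenue. -/
def IsLookahead {n : ℕ} (D : (Fin n → ℝ) →₀ ℝ)
    (A : (K : Finset (Fin n)) → ({j // j ∉ K} → ℝ) → Mechanism {i // i ∈ K}) : Prop :=
  ∀ K u, (A K u).Valid ∧
    ∀ M : Mechanism {i // i ∈ K}, M.Valid → revOn D K u M ≤ revOn D K u (A K u)

/-- The expected revenue of the `k`-lookahead mechanism given by the rule `A`. -/
noncomputable def lookaheadRev (k : ℕ) {n : ℕ} (D : (Fin n → ℝ) →₀ ℝ)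
    (A : (K : Finset (Fin n)) → ({j // j ∉ K} → ℝ) → Mechanism {i // i ∈ K}) : ℝ :=
  expect D fun v => ∑ i : {i // i ∈ top k v}, (A (top k v) (fun j => v j)).pay (fun i => v i) i

/-- All quotients `rev_k(D) / OPT(D)`. -/
def ratios (k : ℕ) : Set ℝ :=
  {q | ∃ (n : ℕ) (D : (Fin n → ℝ) →₀ ℝ)
    (A : (K : Finset (Fin n)) → ({j // j ∉ K} → ℝ) → Mechanism {i // i ∈ K}),
    IsDist D ∧ 0 < OPT D ∧ IsLookahead D A ∧ q = lookaheadRev k D A / OPT D}

/-- The approximation ratio of the `k`-lookahead mechanism: the infimum of all quotients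
`rev_k(D) / OPT(D)`, taken in the extended real line. -/
noncomputable def rho (k : ℕ) : EReal := ⨅ q ∈ ratios k, (q : EReal)

/-! ### Existence of optimal mechanisms -/

section optimal

variable {ι : Type} [Fintype ι] [DecidableEq ι]

theorem Mechanism.Valid.alloc_le_one {M : Mechanism ι} (hM : M.Valid) {v : ι → ℝ}
    (hv : ∀ i, 0 < v i) (i : ι) : M.alloc v i ≤ 1 :=
  (Finset.single_le_sum (fun j _ => hM.alloc_nonneg v hv j) (Finset.mem_univ i)).trans
    (hM.alloc_sum v hv)

omit [Fintype ι] in
theorem update_pos {v : ι → ℝ} (hv : ∀ i, 0 < v i) (i : ι) {t : ℝ} (ht : 0 < t) :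
    ∀ j, 0 < Function.update v i t j := by
  intro j
  by_cases h : j = i
  · subst h; simpa using ht
  · simpa [Function.update_of_ne h] using hv j

theorem Mechanism.Valid.pay_le {M : Mechanism ι} (hM : M.Valid) {v : ι → ℝ}
    (hv : ∀ i, 0 < v i) (i : ι) : M.pay v i ≤ v i := by
  have h1 := hM.rational v hv i
  have h2 := hM.alloc_le_one hv i
  have h3 := hv i
  nlinarith

/-- the utility of bidder `i` with value `t` against the bids `v` of the others -/
noncomputable def util (M : Mechanism ι) (v : ι → ℝ) (i : ι) (t : ℝ) : ℝ :=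
  M.alloc (Function.update v i t) i * t - M.pay (Function.update v i t) i

/-- the least utility of bidder `i` against the bids `v` of the others -/
noncomputable def slack (M : Mechanism ι) (v : ι → ℝ) (i : ι) : ℝ :=
  sInf (util M v i '' Set.Ioi 0)

theorem util_nonneg {M : Mechanism ι} (hM : M.Valid) {v : ι → ℝ} (hv : ∀ i, 0 < v i) (i : ι)
    {t : ℝ} (ht : 0 < t) : 0 ≤ util M v i t := by
  have := hM.rational _ (update_pos hv i ht) i
  simpa [util] using this

theorem slack_nonneg {M : Mechanism ι} (hM : M.Valid) {v : ι → ℝ} (hv : ∀ i, 0 < v i) (i : ι) :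
    0 ≤ slack M v i := by
  refine le_csInf ((Set.nonempty_Ioi (a := (0 : ℝ))).image _) ?_
  rintro _ ⟨t, ht, rfl⟩
  exact util_nonneg hM hv i ht

theorem slack_le {M : Mechanism ι} (hM : M.Valid) {v : ι → ℝ} (hv : ∀ i, 0 < v i) (i : ι) :
    slack M v i ≤ M.alloc v i * v i - M.pay v i := by
  have : util M v i (v i) = M.alloc v i * v i - M.pay v i := by simp [util]
  rw [← this]
  apply csInf_le
  · exact ⟨0, by rintro _ ⟨t, ht, rfl⟩; exact util_nonneg hM hv i ht⟩
  · exact ⟨v i, hv i, rfl⟩

theorem le_slack {M : Mechanism ι} (hM : M.Valid) {v : ι → ℝ} (hv : ∀ i, 0 < v i) (i : ι) :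
    M.alloc v i * v i - M.pay v i - v i ≤ slack M v i := by
  refine le_csInf ((Set.nonempty_Ioi (a := (0 : ℝ))).image _) ?_
  rintro _ ⟨t, ht, rfl⟩
  have ht' : (0 : ℝ) < t := ht
  have h1 := hM.truthful _ (update_pos hv i ht') i (v i) (hv i)
  simp only [Function.update_idem, Function.update_self, Function.update_eq_self] at h1
  have h2 := hM.alloc_le_one hv i
  have h3 := hM.alloc_nonneg v hv i
  have h4 := hv i
  unfold util
  nlinarith [mul_nonneg h3 ht'.le]

omit [Fintype ι] in
theorem slack_update (M : Mechanism ι) (v : ι → ℝ) (i : ι) (t : ℝ) :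
    slack M (Function.update v i t) i = slack M v i := by
  unfold slack
  congr 1
  apply Set.image_congr
  intro s _
  simp [util]

open Classical in
/-- the normalised mechanism -/
noncomputable def normalise (M : Mechanism ι) : Mechanism ι where
  alloc v i := if ∀ j, 0 < v j then M.alloc v i else 0
  pay v i := if ∀ j, 0 < v j then M.pay v i + slack M v i else 0

theorem normalise_valid {M : Mechanism ι} (hM : M.Valid) : (normalise M).Valid where
  alloc_nonneg v hv i := by simpa [normalise, hv] using hM.alloc_nonneg v hv i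
  alloc_sum v hv := by simpa [normalise, hv] using hM.alloc_sum v hv
  truthful v hv i t ht := by
    have h1 := hM.truthful v hv i t ht
    have h2 := update_pos hv i ht
    simp only [normalise, if_pos hv, if_pos h2, slack_update]
    linarith
  rational v hv i := by
    have := slack_le hM hv i
    simp only [normalise, if_pos hv]
    linarith

/-- There is a revenue maximising mechanism, for every finitely supported weight. -/
theorem exists_optimal {σ : Type*} (S : Finset σ) (c : σ → ℝ) (hc : ∀ s ∈ S, 0 ≤ c s)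
    (z : σ → ι → ℝ) (hz : ∀ s ∈ S, 0 < c s → ∀ i, 0 < z s i) :
    ∃ M : Mechanism ι, M.Valid ∧ ∀ N : Mechanism ι, N.Valid →
      ∑ s ∈ S, c s * ∑ i, N.pay (z s) i ≤ ∑ s ∈ S, c s * ∑ i, M.pay (z s) i := by
  classical
  let C1 : Set ((ι → ℝ) → ι → ℝ) := Set.pi Set.univ fun _ => Set.pi Set.univ fun _ => Set.Icc 0 1
  let C2 : Set ((ι → ℝ) → ι → ℝ) :=
    Set.pi Set.univ fun v => Set.pi Set.univ fun i => Set.Icc (-|v i|) |v i|
  have hC1 : IsCompact C1 := isCompact_univ_pi fun _ => isCompact_univ_pi fun _ => isCompact_Icc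
  have hC2 : IsCompact C2 := isCompact_univ_pi fun _ => isCompact_univ_pi fun _ => isCompact_Icc
  let V : Set (((ι → ℝ) → ι → ℝ) × ((ι → ℝ) → ι → ℝ)) :=
    {m | (Mechanism.mk m.1 m.2).Valid}
  have hV : IsClosed V := by
    have : V = (⋂ (v : ι → ℝ) (_ : ∀ i, 0 < v i) (i : ι), {m | 0 ≤ m.1 v i}) ∩
        ((⋂ (v : ι → ℝ) (_ : ∀ i, 0 < v i), {m | ∑ i, m.1 v i ≤ 1}) ∩
        ((⋂ (v : ι → ℝ) (_ : ∀ i, 0 < v i) (i : ι) (t : ℝ) (_ : 0 < t),
          {m | m.1 (Function.update v i t) i * v i - m.2 (Function.update v i t) i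
            ≤ m.1 v i * v i - m.2 v i}) ∩
        (⋂ (v : ι → ℝ) (_ : ∀ i, 0 < v i) (i : ι), {m | 0 ≤ m.1 v i * v i - m.2 v i}))) := by
      ext m
      simp only [Set.mem_inter_iff, Set.mem_iInter, Set.mem_ofPred_eq, V]
      constructor
      · intro h
        exact ⟨h.alloc_nonneg, h.alloc_sum, h.truthful, h.rational⟩
      · rintro ⟨h1, h2, h3, h4⟩
        exact ⟨h1, h2, h3, h4⟩
    rw [this]
    refine IsClosed.inter ?_ (IsClosed.inter ?_ (IsClosed.inter ?_ ?_))
    · refine isClosed_iInter fun v => isClosed_iInter fun _ => isClosed_iInter fun i => ?_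
      exact isClosed_le (by fun_prop) (by fun_prop)
    · refine isClosed_iInter fun v => isClosed_iInter fun _ => ?_
      exact isClosed_le (by fun_prop) (by fun_prop)
    · refine isClosed_iInter fun v => isClosed_iInter fun _ => isClosed_iInter fun i =>
        isClosed_iInter fun t => isClosed_iInter fun _ => ?_
      exact isClosed_le (by fun_prop) (by fun_prop)
    · refine isClosed_iInter fun v => isClosed_iInter fun _ => isClosed_iInter fun i => ?_
      exact isClosed_le (by fun_prop) (by fun_prop)
  have hK : IsCompact ((C1 ×ˢ C2) ∩ V) := (hC1.prod hC2).inter_right hV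
  have hne : ((C1 ×ˢ C2) ∩ V).Nonempty := by
    refine ⟨(fun _ _ => 0, fun _ _ => 0), ⟨⟨?_, ?_⟩, ?_⟩⟩
    · intro v _ i _; simp
    · intro v _ i _; simp
    · constructor <;> simp
  obtain ⟨m, hm, hmax⟩ := hK.exists_isMaxOn hne
    (f := fun m => ∑ s ∈ S, c s * ∑ i, m.2 (z s) i) (by fun_prop)
  refine ⟨⟨m.1, m.2⟩, hm.2, fun N hN => ?_⟩
  have hmem : ((normalise N).alloc, (normalise N).pay) ∈ (C1 ×ˢ C2) ∩ V := by
    refine ⟨⟨?_, ?_⟩, normalise_valid hN⟩
    · intro v _ i _
      by_cases hv : ∀ j, 0 < v j
      · simp only [normalise, if_pos hv]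
        exact ⟨hN.alloc_nonneg v hv i, hN.alloc_le_one hv i⟩
      · simp [normalise, hv]
    · intro v _ i _
      by_cases hv : ∀ j, 0 < v j
      · simp only [normalise, if_pos hv]
        rw [abs_of_pos (hv i)]
        have h1 := slack_le hN hv i
        have h2 := le_slack hN hv i
        have h3 := hN.alloc_le_one hv i
        have h4 := hN.alloc_nonneg v hv i
        have h5 := hv i
        constructor
        · nlinarith [mul_nonneg h4 h5.le]
        · nlinarith
      · simp [normalise, hv]
  have h1 := hmax hmem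
  refine le_trans ?_ h1
  refine Finset.sum_le_sum fun s hs => ?_
  rcases (hc s hs).eq_or_lt with h0 | h0
  · simp [← h0]
  · refine mul_le_mul_of_nonneg_left ?_ h0.le
    refine Finset.sum_le_sum fun i _ => ?_
    have hp := hz s hs h0
    simp only [normalise, if_pos hp]
    linarith [slack_nonneg hN hp i]

end optimal

/-! ### The key estimate -/

section key

/-- Moving one coordinate up: a function which is monotone in one coordinate is almost
uncorrelated with any two sets exchanged by moving that coordinate one step up. -/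
theorem key {l m : ℕ} (S T : Finset (Fin l → Fin m)) (j : Fin l) (y : (Fin l → Fin m) → ℝ)
    (h0 : ∀ a, 0 ≤ y a) (h1 : ∀ a, y a ≤ 1)
    (hmono : ∀ a (h : (a j : ℕ) + 1 < m), y a ≤ y (Function.update a j ⟨a j + 1, h⟩))
    (hST : ∀ a ∈ S, ∀ h : (a j : ℕ) + 1 < m, Function.update a j ⟨a j + 1, h⟩ ∈ T) :
    ∑ a ∈ S, y a ≤ ∑ a ∈ T, y a + (m : ℝ) ^ (l - 1) := by
  classical
  rw [← Finset.sum_filter_add_sum_filter_not S (fun a => (a j : ℕ) + 1 < m)]
  let φ : (Fin l → Fin m) → (Fin l → Fin m) := fun a =>
    if h : (a j : ℕ) + 1 < m then Function.update a j ⟨a j + 1, h⟩ else a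
  refine add_le_add ?_ ?_
  · have hφ : ∀ a (h : (a j : ℕ) + 1 < m), φ a = Function.update a j ⟨a j + 1, h⟩ := fun a h => by
      simp only [φ, dif_pos h]
    calc ∑ a ∈ S.filter (fun a => (a j : ℕ) + 1 < m), y a
        ≤ ∑ a ∈ S.filter (fun a => (a j : ℕ) + 1 < m), y (φ a) := by
          refine Finset.sum_le_sum fun a ha => ?_
          have h := (Finset.mem_filter.1 ha).2
          rw [hφ a h]
          exact hmono a h
      _ = ∑ b ∈ (S.filter (fun a => (a j : ℕ) + 1 < m)).image φ, y b := by
          rw [Finset.sum_image]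
          intro a ha b hb hab
          have ha' := (Finset.mem_filter.1 ha).2
          have hb' := (Finset.mem_filter.1 hb).2
          simp only [hφ a ha', hφ b hb'] at hab
          funext i
          by_cases hi : i = j
          · subst hi
            have := congrFun hab i
            simp only [Function.update_self, Fin.mk.injEq] at this
            exact Fin.ext (by omega)
          · have := congrFun hab i
            simpa [Function.update_of_ne hi] using this
      _ ≤ ∑ b ∈ T, y b := by
          refine Finset.sum_le_sum_of_subset_of_nonneg ?_ fun b _ _ => h0 b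
          intro b hb
          obtain ⟨a, ha, rfl⟩ := Finset.mem_image.1 hb
          have h := Finset.mem_filter.1 ha
          rw [hφ a h.2]
          exact hST a h.1 h.2
  · calc ∑ a ∈ S.filter (fun a => ¬ (a j : ℕ) + 1 < m), y a
        ≤ ∑ a ∈ S.filter (fun a => ¬ (a j : ℕ) + 1 < m), (1 : ℝ) :=
          Finset.sum_le_sum fun a _ => h1 a
      _ = ((S.filter (fun a => ¬ (a j : ℕ) + 1 < m)).card : ℝ) := by simp
      _ ≤ (Fintype.card ({i : Fin l // i ≠ j} → Fin m) : ℝ) := by
          have : (S.filter (fun a => ¬ (a j : ℕ) + 1 < m)).card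
              ≤ (Finset.univ : Finset ({i : Fin l // i ≠ j} → Fin m)).card := by
            refine Finset.card_le_card_of_injOn (fun a i => a i) (fun _ _ => Finset.mem_univ _) ?_
            intro a ha b hb hab
            have ha' := (Finset.mem_filter.1 ha).2
            have hb' := (Finset.mem_filter.1 hb).2
            funext i
            by_cases hi : i = j
            · subst hi
              have h3 := (a i).2
              have h4 := (b i).2
              exact Fin.ext (by omega)
            · exact congrFun hab ⟨i, hi⟩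
          exact_mod_cast this
      _ = (m : ℝ) ^ (l - 1) := by
          have : Fintype.card {i : Fin l // i ≠ j} = l - 1 := by
            simp [Fintype.card_subtype_compl]
          rw [Fintype.card_fun, this, Fintype.card_fin]
          push_cast
          rfl

end key

/-! ### The bad distribution -/

section bad

variable {l m : ℕ}

/-- the state is odd -/
def Od (a : Fin l → Fin m) : Prop := Odd (∑ j, (a j : ℕ))

/-- the valuations of the `l + 1` highest bidders: the first one has value `h`, and the value of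
the `j`-th other one is `1 + (a j + 1) / m ^ 2` -/
noncomputable def prof (h : ℝ) (a : Fin l → Fin m) : Fin (l + 1) → ℝ :=
  Fin.cons h (fun j => 1 + ((a j : ℕ) + 1 : ℝ) / (m : ℝ) ^ 2)

/-- the value of the first bidder -/
noncomputable def top1 (m : ℕ) (b : Bool) : ℝ := if b then (m : ℝ) else 2

open Classical in
/-- the probabilities -/
noncomputable def prb (ω : (Fin l → Fin m) × Bool) : ℝ :=
  if Od ω.1 then (if ω.2 then (2 / m : ℝ) else 1 - 2 / m) / (m : ℝ) ^ l
  else (if ω.2 then (0 : ℝ) else 1) / (m : ℝ) ^ l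

theorem prof_pos (hm : 3 ≤ m) (b : Bool) (a : Fin l → Fin m) : ∀ i, 0 < prof (top1 m b) a i := by
  intro i
  have hm' : (0 : ℝ) < m := by exact_mod_cast (by omega : 0 < m)
  refine Fin.cases ?_ (fun j => ?_) i
  · cases b <;> simp [prof, top1]; omega
  · simp only [prof, Fin.cons_succ]
    positivity

theorem prof_update (h t : ℝ) (a : Fin l → Fin m) (j : Fin l) (s : Fin m)
    (ht : t = 1 + ((s : ℕ) + 1 : ℝ) / (m : ℝ) ^ 2) :
    Function.update (prof h a) j.succ t = prof h (Function.update a j s) := by
  unfold prof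
  rw [← Fin.cons_update]
  congr 1
  funext i
  by_cases hi : i = j
  · subst hi; simp [ht]
  · simp [Function.update_of_ne hi]

theorem prof_update_zero (h t : ℝ) (a : Fin l → Fin m) :
    Function.update (prof h a) 0 t = prof t a := by
  unfold prof
  rw [Fin.update_cons_zero]

theorem odd_update (a : Fin l → Fin m) (j : Fin l) (h : (a j : ℕ) + 1 < m) :
    Od (Function.update a j ⟨a j + 1, h⟩) ↔ ¬ Od a := by
  unfold Od
  have h1 : ∑ i, ((Function.update a j ⟨(a j : ℕ) + 1, h⟩ i : Fin m) : ℕ)
      = (∑ i, (a i : ℕ)) + 1 := by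
    rw [← Finset.add_sum_erase _ _ (Finset.mem_univ j),
      ← Finset.add_sum_erase Finset.univ (fun i => (a i : ℕ)) (Finset.mem_univ j)]
    have : ∑ x ∈ Finset.univ.erase j, ((Function.update a j ⟨(a j : ℕ) + 1, h⟩ x : Fin m) : ℕ)
        = ∑ x ∈ Finset.univ.erase j, (a x : ℕ) := by
      refine Finset.sum_congr rfl fun x hx => ?_
      rw [Function.update_of_ne (Finset.ne_of_mem_erase hx)]
    rw [this]
    simp only [Function.update_self]
    ring
  rw [h1, Nat.odd_add_one]

/-- The expected revenue of a mechanism for the `l + 1` highest bidders is at most `2 + o(1)`. -/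
theorem upper (hm : 3 ≤ m) (N : Mechanism (Fin (l + 1))) (hN : N.Valid) :
    ∑ ω : (Fin l → Fin m) × Bool, prb ω * ∑ i, N.pay (prof (top1 m ω.2) ω.1) i
      ≤ 2 + (2 * l + 6) / m := by
  classical
  have hm0 : (3 : ℝ) ≤ m := by exact_mod_cast hm
  have hmpos : (0 : ℝ) < m := by linarith
  set c : ℝ := 1 + 1 / m with hc
  set q : ℝ := 2 / m with hq
  have hq0 : 0 ≤ q := by positivity
  have hq1 : q ≤ 1 := by rw [hq, div_le_one hmpos]; linarith
  have hqm : q * m = 2 := by rw [hq]; field_simp
  have hc1 : 1 ≤ c := by rw [hc]; have : 0 ≤ 1 / (m : ℝ) := by positivity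
                         linarith
  -- abbreviations
  let x : Bool → (Fin l → Fin m) → ℝ := fun b a => N.alloc (prof (top1 m b) a) 0
  let y : Bool → Fin l → (Fin l → Fin m) → ℝ := fun b j a =>
    N.alloc (prof (top1 m b) a) j.succ
  have hx0 : ∀ b a, 0 ≤ x b a := fun b a => hN.alloc_nonneg _ (prof_pos hm b a) _
  have hx1 : ∀ b a, x b a ≤ 1 := fun b a => hN.alloc_le_one (prof_pos hm b a) _
  have hy0 : ∀ b j a, 0 ≤ y b j a := fun b j a => hN.alloc_nonneg _ (prof_pos hm b a) _
  have hy1 : ∀ b j a, y b j a ≤ 1 := fun b j a => hN.alloc_le_one (prof_pos hm b a) _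
  have hxy : ∀ b a, x b a + ∑ j, y b j a ≤ 1 := fun b a => by
    have := hN.alloc_sum _ (prof_pos hm b a)
    rwa [Fin.sum_univ_succ] at this
  -- payments of the encoders
  have hpay : ∀ b a, ∑ j : Fin l, N.pay (prof (top1 m b) a) j.succ ≤ c * ∑ j, y b j a := by
    intro b a
    rw [Finset.mul_sum]
    refine Finset.sum_le_sum fun j _ => ?_
    have h1 := hN.rational _ (prof_pos hm b a) j.succ
    have h2 : prof (top1 m b) a j.succ ≤ c := by
      simp only [prof, Fin.cons_succ, hc]
      have h3 : ((a j : ℕ) : ℝ) + 1 ≤ m := by exact_mod_cast (a j).2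
      have : (((a j : ℕ) : ℝ) + 1) / (m : ℝ) ^ 2 ≤ m / (m : ℝ) ^ 2 := by gcongr
      have h4 : (m : ℝ) / (m : ℝ) ^ 2 = 1 / m := by field_simp
      linarith
    have h3 := hy0 b j a
    calc N.pay (prof (top1 m b) a) j.succ
        ≤ N.alloc (prof (top1 m b) a) j.succ * prof (top1 m b) a j.succ := by linarith
      _ ≤ N.alloc (prof (top1 m b) a) j.succ * c := mul_le_mul_of_nonneg_left h2 h3
      _ = c * y b j a := by simp only [y]; ring
  -- payments of the first bidder
  have hp2 : ∀ a, N.pay (prof (top1 m false) a) 0 ≤ 2 * x false a := by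
    intro a
    have h1 := hN.rational _ (prof_pos hm false a) 0
    have h2 : prof (top1 m false) a 0 = 2 := by simp [prof, top1]
    rw [h2] at h1
    simp only [x]
    linarith
  have hpm : ∀ a, N.pay (prof (top1 m true) a) 0
      ≤ N.pay (prof (top1 m false) a) 0 + m * (x true a - x false a) := by
    intro a
    have h1 := hN.truthful _ (prof_pos hm true a) 0 2 (by norm_num)
    rw [prof_update_zero] at h1
    have h2 : prof (top1 m true) a 0 = m := by simp [prof, top1]
    have h3 : prof (2 : ℝ) a = prof (top1 m false) a := by simp [top1]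
    rw [h2, h3] at h1
    simp only [x]
    linarith
  -- monotonicity
  have hmono : ∀ j a (h : (a j : ℕ) + 1 < m),
      y false j a ≤ y false j (Function.update a j ⟨a j + 1, h⟩) := by
    intro j a h
    set a' := Function.update a j ⟨a j + 1, h⟩ with ha'
    set w : ℝ := 1 + (((a j : ℕ) : ℝ) + 1) / (m : ℝ) ^ 2 with hw
    set w' : ℝ := 1 + ((((a j : ℕ) + 1 : ℕ) : ℝ) + 1) / (m : ℝ) ^ 2 with hw'
    have hww : w < w' := by
      rw [hw, hw']
      push_cast
      gcongr
      linarith
    have hwpos : 0 < w := by rw [hw]; positivity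
    have hw'pos : 0 < w' := by rw [hw']; positivity
    have e1 : Function.update (prof (top1 m false) a) j.succ w' = prof (top1 m false) a' :=
      prof_update _ _ _ _ _ rfl
    have e2 : Function.update (prof (top1 m false) a') j.succ w = prof (top1 m false) a := by
      rw [← e1, Function.update_idem]
      have : w = prof (top1 m false) a j.succ := by simp [prof, hw]
      rw [this, Function.update_eq_self]
    have v1 : prof (top1 m false) a j.succ = w := by simp [prof, hw]
    have v2 : prof (top1 m false) a' j.succ = w' := by rw [← e1]; simp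
    have h1 := hN.truthful _ (prof_pos hm false a) j.succ w' hw'pos
    have h2 := hN.truthful _ (prof_pos hm false a') j.succ w hwpos
    rw [e1, v1] at h1
    rw [e2, v2] at h2
    have h3 : 0 ≤ (w' - w) * (y false j a' - y false j a) := by
      simp only [y]
      nlinarith
    have h4 : 0 < w' - w := by linarith
    by_contra hcon
    have h5 : y false j a' - y false j a < 0 := by linarith [not_le.1 hcon]
    nlinarith [mul_neg_of_pos_of_neg h4 h5]
  -- the sets of even and odd states
  set O : Finset (Fin l → Fin m) := Finset.univ.filter Od with hO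
  set E : Finset (Fin l → Fin m) := Finset.univ.filter (fun a => ¬ Od a) with hE
  set T : ℝ := (m : ℝ) ^ l with hT
  have hTpos : 0 < T := by positivity
  have hkey : ∑ a ∈ O, ∑ j, y false j a ≤ ∑ a ∈ E, ∑ j, y false j a + l * (m : ℝ) ^ (l - 1) := by
    rw [Finset.sum_comm, Finset.sum_comm (s := E)]
    calc ∑ j, ∑ a ∈ O, y false j a
        ≤ ∑ j : Fin l, (∑ a ∈ E, y false j a + (m : ℝ) ^ (l - 1)) := by
          refine Finset.sum_le_sum fun j _ => ?_
          refine key O E j (y false j) (hy0 false j) (hy1 false j) (hmono j) ?_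
          intro a ha h
          rw [hE, Finset.mem_filter]
          refine ⟨Finset.mem_univ _, ?_⟩
          rw [odd_update, not_not]
          exact (Finset.mem_filter.1 ha).2
      _ = _ := by
          rw [Finset.sum_add_distrib]
          simp
  -- the pointwise bounds
  have hterm : ∀ a, ∑ b : Bool, prb (a, b) * ∑ i, N.pay (prof (top1 m b) a) i
      ≤ (if Od a then 2 + c * ∑ j, y false j a + q * c else 2 + (c - 2) * ∑ j, y false j a) / T := by
    intro a
    rw [Fintype.sum_bool]
    have ht := hpay true a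
    have hf := hpay false a
    have hYt : ∑ j, y true j a ≤ 1 := by linarith [hxy true a, hx0 true a]
    have hYf0 : 0 ≤ ∑ j, y false j a := Finset.sum_nonneg fun j _ => hy0 false j a
    have h2 := hp2 a
    have h3 := hpm a
    have h4 := hxy false a
    have h5 := hx1 true a
    by_cases ho : Od a
    · simp only [prb, if_pos ho, if_true, Bool.false_eq_true, if_false]
      rw [Fin.sum_univ_succ, Fin.sum_univ_succ]
      rw [← hq, ← hT, div_mul_eq_mul_div q, div_mul_eq_mul_div (1 - q), ← add_div]
      rw [div_le_div_iff_of_pos_right hTpos]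
      have h6 : q * (N.pay (prof (top1 m true) a) 0 +
          ∑ i : Fin l, N.pay (prof (top1 m true) a) i.succ)
          ≤ q * (N.pay (prof (top1 m false) a) 0 + m * (x true a - x false a) + c) := by
        refine mul_le_mul_of_nonneg_left ?_ hq0
        have : c * ∑ j, y true j a ≤ c * 1 := mul_le_mul_of_nonneg_left hYt (by linarith)
        linarith
      have h7 : (1 - q) * (N.pay (prof (top1 m false) a) 0 +
          ∑ i : Fin l, N.pay (prof (top1 m false) a) i.succ)
          ≤ (1 - q) * (N.pay (prof (top1 m false) a) 0) + c * ∑ j, y false j a := by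
        have h8 : (1 - q) * ∑ i : Fin l, N.pay (prof (top1 m false) a) i.succ
            ≤ (1 - q) * (c * ∑ j, y false j a) := mul_le_mul_of_nonneg_left hf (by linarith)
        have h9 : (1 - q) * (c * ∑ j, y false j a) ≤ 1 * (c * ∑ j, y false j a) :=
          mul_le_mul_of_nonneg_right (by linarith) (mul_nonneg (by linarith) hYf0)
        linarith
      have h8 : q * (m * (x true a - x false a)) = 2 * (x true a - x false a) := by
        rw [← mul_assoc, hqm]
      nlinarith
    · simp only [prb, if_neg ho, if_true, Bool.false_eq_true, if_false]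
      rw [Fin.sum_univ_succ (fun i => N.pay (prof (top1 m false) a) i)]
      rw [zero_div, zero_mul, zero_add, div_mul_eq_mul_div, one_mul,
        div_le_div_iff_of_pos_right hTpos]
      linarith
  have hcardOE : (O.card : ℝ) + E.card = T := by
    have h1 : O.card + E.card = (Finset.univ : Finset (Fin l → Fin m)).card :=
      Finset.card_filter_add_card_filter_not _
    have h2 : (Finset.univ : Finset (Fin l → Fin m)).card = m ^ l := by
      simp
    rw [hT]
    exact_mod_cast h1.trans h2
  rw [Fintype.sum_prod_type]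
  calc ∑ a, ∑ b : Bool, prb (a, b) * ∑ i, N.pay (prof (top1 m b) a) i
      ≤ ∑ a, (if Od a then 2 + c * ∑ j, y false j a + q * c
          else 2 + (c - 2) * ∑ j, y false j a) / T := Finset.sum_le_sum fun a _ => hterm a
    _ = (∑ a ∈ O, (2 + c * ∑ j, y false j a + q * c)
          + ∑ a ∈ E, (2 + (c - 2) * ∑ j, y false j a)) / T := by
        rw [← Finset.sum_div, Finset.sum_ite]
    _ ≤ (2 * T + 2 / m * T + (2 * l + 4) / m * T) / T := by
        rw [div_le_div_iff_of_pos_right hTpos]
        have e1 : ∑ a ∈ O, (2 + c * ∑ j, y false j a + q * c)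
            = (2 + q * c) * O.card + c * ∑ a ∈ O, ∑ j, y false j a := by
          rw [Finset.sum_add_distrib, Finset.sum_add_distrib, ← Finset.mul_sum]
          simp only [Finset.sum_const, nsmul_eq_mul]
          ring
        have e2 : ∑ a ∈ E, (2 + (c - 2) * ∑ j, y false j a)
            = 2 * E.card + (c - 2) * ∑ a ∈ E, ∑ j, y false j a := by
          rw [Finset.sum_add_distrib, ← Finset.mul_sum]
          simp only [Finset.sum_const, nsmul_eq_mul]
          ring
        rw [e1, e2]
        set YO := ∑ a ∈ O, ∑ j, y false j a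
        set YE := ∑ a ∈ E, ∑ j, y false j a with hYE
        have hYE1 : YE ≤ E.card := by
          calc YE ≤ ∑ a ∈ E, (1 : ℝ) := Finset.sum_le_sum fun a _ => by
                linarith [hxy false a, hx0 false a]
            _ = E.card := by simp
        have hE0 : (0 : ℝ) ≤ E.card := by positivity
        have hO0 : (0 : ℝ) ≤ O.card := by positivity
        have h10 : c * YO ≤ c * (YE + l * (m : ℝ) ^ (l - 1)) :=
          mul_le_mul_of_nonneg_left hkey (by linarith)
        have h11 : (l : ℝ) * (m : ℝ) ^ (l - 1) ≤ l / m * T := by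
          rcases Nat.eq_zero_or_pos l with h | h
          · subst h; simp
          · have : T = (m : ℝ) ^ (l - 1) * m := by
              rw [hT, ← pow_succ, Nat.sub_add_cancel h]
            rw [this]
            have h12 : (l : ℝ) / m * ((m : ℝ) ^ (l - 1) * m) = l * (m : ℝ) ^ (l - 1) := by
              field_simp
            rw [h12]
        have hc2 : c ≤ 2 := by
          rw [hc]
          have : 1 / (m : ℝ) ≤ 1 := by rw [div_le_one hmpos]; linarith
          linarith
        have h13 : c * (l * (m : ℝ) ^ (l - 1)) ≤ 2 * (l / m * T) := by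
          have : (0 : ℝ) ≤ l * (m : ℝ) ^ (l - 1) := by positivity
          calc c * (l * (m : ℝ) ^ (l - 1)) ≤ 2 * (l * (m : ℝ) ^ (l - 1)) :=
                mul_le_mul_of_nonneg_right hc2 this
            _ ≤ 2 * (l / m * T) := by linarith
        have h14 : q * c * O.card ≤ 4 / m * T := by
          have : q * c ≤ 4 / m := by
            rw [hq]
            calc 2 / (m : ℝ) * c ≤ 2 / m * 2 := mul_le_mul_of_nonneg_left hc2 (by positivity)
              _ = 4 / m := by ring
          calc q * c * O.card ≤ 4 / m * O.card := mul_le_mul_of_nonneg_right this hO0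
            _ ≤ 4 / m * T := mul_le_mul_of_nonneg_left (by linarith) (by positivity)
        have h15 : (2 * c - 2) * YE ≤ 2 / m * T := by
          have h16 : 2 * c - 2 = 2 / m := by rw [hc]; ring
          rw [h16]
          exact mul_le_mul_of_nonneg_left (by linarith) (by positivity)
        have h17 : (2 * (l : ℝ) + 4) / m * T = 2 * (l / m * T) + 4 / m * T := by ring
        nlinarith
    _ = 2 + (2 * l + 6) / m := by
        field_simp
        ring

/-- the valuations of all `l + 2` bidders: the last one has value one -/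
noncomputable def val (ω : (Fin l → Fin m) × Bool) : Fin (l + 2) → ℝ :=
  Fin.snoc (α := fun _ => ℝ) (prof (top1 m ω.2) ω.1) 1

variable (l m) in
/-- the bad distribution -/
noncomputable def Bad : (Fin (l + 2) → ℝ) →₀ ℝ :=
  ∑ ω : (Fin l → Fin m) × Bool, Finsupp.single (val ω) (prb ω)

theorem expect_Bad (f : (Fin (l + 2) → ℝ) → ℝ) :
    expect (Bad l m) f = ∑ ω : (Fin l → Fin m) × Bool, prb ω * f (val ω) := by
  unfold expect Bad
  rw [← Finsupp.sum_finsetSum_index (by simp) (by intros; ring)]
  refine Finset.sum_congr rfl fun ω _ => ?_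
  rw [Finsupp.sum_single_index (by simp)]

theorem prb_nonneg (hm : 3 ≤ m) (ω : (Fin l → Fin m) × Bool) : 0 ≤ prb ω := by
  have hm0 : (3 : ℝ) ≤ m := by exact_mod_cast hm
  have h1 : (2 : ℝ) / m ≤ 1 := by rw [div_le_one (by linarith)]; linarith
  have h2 : 0 ≤ (2 : ℝ) / m := by positivity
  unfold prb
  split_ifs <;> positivity

theorem prb_sum (hm : 3 ≤ m) : ∑ ω : (Fin l → Fin m) × Bool, prb ω = 1 := by
  have hm0 : (3 : ℝ) ≤ m := by exact_mod_cast hm
  rw [Fintype.sum_prod_type]
  have : ∀ a : Fin l → Fin m, ∑ b : Bool, prb (a, b) = 1 / (m : ℝ) ^ l := by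
    intro a
    rw [Fintype.sum_bool]
    unfold prb
    by_cases h : Od a
    · simp only [if_pos h, if_true, Bool.false_eq_true, if_false]
      ring
    · simp only [if_neg h, if_true, Bool.false_eq_true, if_false]
      ring
  simp only [this]
  rw [Finset.sum_const, nsmul_eq_mul]
  have : ((Finset.univ : Finset (Fin l → Fin m)).card : ℝ) = (m : ℝ) ^ l := by
    have h2 : (Finset.univ : Finset (Fin l → Fin m)).card = m ^ l := by simp
    exact_mod_cast h2
  rw [this]
  have : (m : ℝ) ^ l ≠ 0 := by positivity
  field_simp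

theorem one_lt_prof (hm : 3 ≤ m) (b : Bool) (a : Fin l → Fin m) (i : Fin (l + 1)) :
    1 < prof (top1 m b) a i := by
  have hm0 : (3 : ℝ) ≤ m := by exact_mod_cast hm
  refine Fin.cases ?_ (fun j => ?_) i
  · cases b <;> simp [prof, top1]; linarith
  · simp only [prof, Fin.cons_succ]
    have : 0 < (((a j : ℕ) : ℝ) + 1) / (m : ℝ) ^ 2 := by positivity
    linarith

theorem val_last (ω : (Fin l → Fin m) × Bool) : val ω (Fin.last (l + 1)) = 1 := by
  simp [val]

theorem val_castSucc (ω : (Fin l → Fin m) × Bool) (i : Fin (l + 1)) :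
    val ω i.castSucc = prof (top1 m ω.2) ω.1 i := by
  simp [val]

theorem val_pos (hm : 3 ≤ m) (ω : (Fin l → Fin m) × Bool) (i : Fin (l + 2)) : 0 < val ω i := by
  refine Fin.lastCases ?_ (fun j => ?_) i
  · rw [val_last]; norm_num
  · rw [val_castSucc]; exact prof_pos hm _ _ _

theorem exists_of_mem_support {v : Fin (l + 2) → ℝ} (hv : v ∈ (Bad l m).support) :
    ∃ ω : (Fin l → Fin m) × Bool, v = val ω := by
  by_contra hcon
  push Not at hcon
  rw [Finsupp.mem_support_iff] at hv
  apply hv
  unfold Bad
  rw [Finsupp.finsetSum_apply]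
  refine Finset.sum_eq_zero fun ω _ => ?_
  rw [Finsupp.single_apply, if_neg (fun h => hcon ω h.symm)]

theorem isDist_Bad (hm : 3 ≤ m) : IsDist (Bad l m) where
  nonneg v := by
    unfold Bad
    rw [Finsupp.finsetSum_apply]
    refine Finset.sum_nonneg fun ω _ => ?_
    rw [Finsupp.single_apply]
    split_ifs
    · exact prb_nonneg hm ω
    · exact le_rfl
  total := by
    have h := expect_Bad (l := l) (m := m) (fun _ => 1)
    simp only [mul_one] at h
    rw [prb_sum hm] at h
    simpa [expect] using h
  positive v hv i := by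
    obtain ⟨ω, rfl⟩ := exists_of_mem_support hv
    exact val_pos hm ω i

/-! ### The good mechanism for all bidders -/

variable (m) in
/-- the bids of the middle bidders encode an odd state -/
def OddCode (v : Fin (l + 2) → ℝ) : Prop :=
  ∃ a : Fin l → Fin m, Od a ∧ ∀ j : Fin l, v j.succ.castSucc = 1 + ((a j : ℕ) + 1 : ℝ) / (m : ℝ) ^ 2

variable (m) in
open Classical in
/-- the price offered to the first bidder -/
noncomputable def price (v : Fin (l + 2) → ℝ) : ℝ := if OddCode m v then m else 2

variable (l m) in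
open Classical in
/-- Offer the item to the first bidder at the price `price`. If the state is odd and she refuses,
offer it to the last bidder at the price one. -/
noncomputable def good : Mechanism (Fin (l + 2)) where
  alloc v i := if i = 0 then (if price m v ≤ v 0 then 1 else 0)
    else if i = Fin.last (l + 1) then
      (if (OddCode m v ∧ v 0 < m) ∧ 1 ≤ v (Fin.last (l + 1)) then 1 else 0) else 0
  pay v i := if i = 0 then (if price m v ≤ v 0 then price m v else 0)
    else if i = Fin.last (l + 1) then
      (if (OddCode m v ∧ v 0 < m) ∧ 1 ≤ v (Fin.last (l + 1)) then 1 else 0) else 0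

theorem zero_ne_last : (0 : Fin (l + 2)) ≠ Fin.last (l + 1) := by
  intro h
  have := congrArg Fin.val h
  simp at this

theorem sum_two (f : Fin (l + 2) → ℝ) (hf : ∀ i, i ≠ 0 → i ≠ Fin.last (l + 1) → f i = 0) :
    ∑ i, f i = f 0 + f (Fin.last (l + 1)) := by
  rw [Fin.sum_univ_succ, Fin.sum_univ_castSucc]
  have : ∑ i : Fin l, f (i.castSucc.succ) = 0 := by
    refine Finset.sum_eq_zero fun i _ => hf _ (Fin.succ_ne_zero _) ?_
    intro h
    have h1 := congrArg Fin.val h
    have h2 := i.2
    simp at h1
    omega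
  rw [this, zero_add, Fin.succ_last]

theorem oddCode_update_zero (v : Fin (l + 2) → ℝ) (t : ℝ) :
    OddCode m (Function.update v 0 t) ↔ OddCode m v := by
  unfold OddCode
  have : ∀ j : Fin l, Function.update v 0 t j.succ.castSucc = v j.succ.castSucc := by
    intro j
    refine Function.update_of_ne ?_ _ _
    intro h
    have h1 := congrArg Fin.val h
    simp at h1
  simp only [this]

theorem oddCode_update_last (v : Fin (l + 2) → ℝ) (t : ℝ) :
    OddCode m (Function.update v (Fin.last (l + 1)) t) ↔ OddCode m v := by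
  unfold OddCode
  have : ∀ j : Fin l, Function.update v (Fin.last (l + 1)) t j.succ.castSucc
      = v j.succ.castSucc := by
    intro j
    refine Function.update_of_ne ?_ _ _
    exact (Fin.castSucc_lt_last _).ne
  simp only [this]

theorem good_valid : (good l m).Valid where
  alloc_nonneg v _ i := by
    simp only [good]
    split_ifs <;> norm_num
  alloc_sum v _ := by
    rw [sum_two]
    · simp only [good, if_true, if_neg (zero_ne_last (l := l)).symm]
      by_cases h : (OddCode m v ∧ v 0 < m) ∧ 1 ≤ v (Fin.last (l + 1))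
      · have h1 : ¬ price m v ≤ v 0 := by
          rw [price, if_pos h.1.1]; linarith [h.1.2]
        rw [if_neg h1, if_pos h]; norm_num
      · rw [if_neg h]; split_ifs <;> norm_num
    · intro i h1 h2
      simp [good, h1, h2]
  truthful v hv i t ht := by
    classical
    by_cases h0 : i = 0
    · subst h0
      have hp : price m (Function.update v 0 t) = price m v := by
        unfold price
        simp only [oddCode_update_zero]
      simp only [good, if_true, hp, Function.update_self]
      split_ifs <;> linarith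
    · by_cases h1 : i = Fin.last (l + 1)
      · subst h1
        have h2 : Function.update v (Fin.last (l + 1)) t 0 = v 0 :=
          Function.update_of_ne zero_ne_last _ _
        simp only [good, if_neg h0, if_true, oddCode_update_last, h2, Function.update_self]
        by_cases hA : OddCode m v ∧ v 0 < m
        · simp only [hA, true_and]
          split_ifs <;> linarith
        · simp only [hA, false_and, if_false]
          norm_num
      · simp [good, h0, h1]
  rational v hv i := by
    by_cases h0 : i = 0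
    · subst h0
      simp only [good, if_true]
      split_ifs <;> linarith
    · by_cases h1 : i = Fin.last (l + 1)
      · subst h1
        simp only [good, if_neg h0, if_true]
        by_cases hA : (OddCode m v ∧ v 0 < m) ∧ 1 ≤ v (Fin.last (l + 1))
        · rw [if_pos hA]; linarith [hA.2]
        · rw [if_neg hA]; simp
      · simp [good, h0, h1]

theorem oddCode_val (hm : 3 ≤ m) (ω : (Fin l → Fin m) × Bool) : OddCode m (val ω) ↔ Od ω.1 := by
  have hm0 : (3 : ℝ) ≤ m := by exact_mod_cast hm
  constructor
  · rintro ⟨a, ha, h⟩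
    have : a = ω.1 := by
      funext j
      have h1 := h j
      rw [val_castSucc] at h1
      simp only [prof, Fin.cons_succ] at h1
      have h2 : (m : ℝ) ^ 2 ≠ 0 := by positivity
      have h3 : ((((ω.1 j : ℕ) : ℝ) + 1)) = (((a j : ℕ) : ℝ) + 1) := by
        field_simp at h1
        linarith
      have h4 : ((ω.1 j : ℕ) : ℝ) = ((a j : ℕ) : ℝ) := by linarith
      exact Fin.ext (by exact_mod_cast h4.symm)
    rwa [← this]
  · intro h
    refine ⟨ω.1, h, fun j => ?_⟩
    rw [val_castSucc]
    simp [prof]

theorem good_rev (hm : 3 ≤ m) (ω : (Fin l → Fin m) × Bool) :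
    (∑ i, (good l m).pay (val ω) i = if ω.2 then (m : ℝ) else 1) ∧ Od ω.1 ∨
    (∑ i, (good l m).pay (val ω) i = 2) ∧ ¬ Od ω.1 := by
  classical
  have hm0 : (3 : ℝ) ≤ m := by exact_mod_cast hm
  have hs : ∑ i, (good l m).pay (val ω) i
      = (good l m).pay (val ω) 0 + (good l m).pay (val ω) (Fin.last (l + 1)) := by
    refine sum_two _ fun i h1 h2 => ?_
    simp [good, h1, h2]
  have h0 : val ω 0 = top1 m ω.2 := by
    have : (0 : Fin (l + 2)) = Fin.castSucc 0 := rfl
    rw [this, val_castSucc]
    simp [prof]
  have hl : val ω (Fin.last (l + 1)) = 1 := val_last ω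
  rw [hs]
  simp only [good, if_true, if_neg (zero_ne_last (l := l)).symm, price, oddCode_val hm, h0, hl,
    le_refl, and_true]
  by_cases ho : Od ω.1
  · left
    refine ⟨?_, ho⟩
    simp only [ho, if_true, true_and]
    rcases ω with ⟨a, b⟩
    cases b
    · have h1 : ¬ (m : ℝ) ≤ top1 m false := by simp [top1]; omega
      have h2 : top1 m false < (m : ℝ) := not_le.1 h1
      simp [h1, h2]
    · simp [top1]
  · right
    refine ⟨?_, ho⟩
    simp only [ho, if_false, false_and, add_zero]
    have : (2 : ℝ) ≤ top1 m ω.2 := by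
      rcases ω with ⟨a, b⟩
      cases b
      · simp [top1]
      · simp only [top1, if_true]; linarith
    rw [if_pos this]

/-- The expected revenue of the good mechanism is at least `5 / 2 - o(1)`. -/
theorem good_lower (hl : 1 ≤ l) (hm : 3 ≤ m) :
    5 / 2 - 3 / (2 * m) ≤ expect (Bad l m) (fun v => ∑ i, (good l m).pay v i) := by
  classical
  have hm0 : (3 : ℝ) ≤ m := by exact_mod_cast hm
  have hmpos : (0 : ℝ) < m := by linarith
  rw [expect_Bad, Fintype.sum_prod_type]
  set T : ℝ := (m : ℝ) ^ l with hT
  have hTpos : 0 < T := by positivity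
  set O : Finset (Fin l → Fin m) := Finset.univ.filter Od with hO
  set E : Finset (Fin l → Fin m) := Finset.univ.filter (fun a => ¬ Od a) with hE
  have hcardOE : (O.card : ℝ) + E.card = T := by
    have h1 : O.card + E.card = (Finset.univ : Finset (Fin l → Fin m)).card :=
      Finset.card_filter_add_card_filter_not _
    have h2 : (Finset.univ : Finset (Fin l → Fin m)).card = m ^ l := by
      simp
    rw [hT]
    exact_mod_cast h1.trans h2
  have hkey : (E.card : ℝ) ≤ O.card + (m : ℝ) ^ (l - 1) := by
    have := key E O ⟨0, hl⟩ (fun _ => 1) (fun _ => by norm_num) (fun _ => le_rfl)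
      (fun _ _ => le_rfl) (by
        intro a ha h
        rw [hO, Finset.mem_filter]
        refine ⟨Finset.mem_univ _, ?_⟩
        rw [odd_update]
        exact (Finset.mem_filter.1 ha).2)
    simpa using this
  have hTm : T = (m : ℝ) ^ (l - 1) * m := by
    rw [hT, ← pow_succ, Nat.sub_add_cancel hl]
  have hsum : ∑ a : Fin l → Fin m, ∑ b : Bool, prb (a, b) *
      ∑ i, (good l m).pay (val (a, b)) i
      = ∑ a : Fin l → Fin m, (if Od a then 3 - 2 / (m : ℝ) else 2) / T := by
    refine Finset.sum_congr rfl fun a _ => ?_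
    rw [Fintype.sum_bool]
    by_cases ho : Od a
    · rcases good_rev hm (a, true) with h1 | h1
      · rcases good_rev hm (a, false) with h2 | h2
        · rw [h1.1, h2.1]
          simp only [prb, if_pos ho, if_true, Bool.false_eq_true, if_false]
          rw [← hT]
          field_simp
          ring
        · exact absurd ho h2.2
      · exact absurd ho h1.2
    · rcases good_rev hm (a, true) with h1 | h1
      · exact absurd h1.2 ho
      · rcases good_rev hm (a, false) with h2 | h2
        · exact absurd h2.2 ho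
        · rw [h1.1, h2.1]
          simp only [prb, if_neg ho, if_true, Bool.false_eq_true, if_false]
          rw [← hT]
          field_simp
          ring
  rw [hsum, ← Finset.sum_div, Finset.sum_ite]
  simp only [Finset.sum_const, nsmul_eq_mul]
  rw [le_div_iff₀ hTpos]
  have hE' : (E.card : ℝ) = T - O.card := by linarith
  change (5 / 2 - 3 / (2 * (m : ℝ))) * T ≤ (O.card : ℝ) * (3 - 2 / m) + (E.card : ℝ) * 2
  have hO2 : T * (1 - 1 / m) ≤ 2 * O.card := by
    have : T * (1 - 1 / m) = T - (m : ℝ) ^ (l - 1) := by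
      rw [hTm]; field_simp
    rw [this]; linarith
  have h1 : (0 : ℝ) ≤ 1 - 2 / m := by
    rw [sub_nonneg, div_le_one hmpos]; linarith
  have h2 : (1 - 2 / (m : ℝ)) * (T * (1 - 1 / m)) ≤ (1 - 2 / m) * (2 * O.card) :=
    mul_le_mul_of_nonneg_left hO2 h1
  have h3 : (1 - 3 / (m : ℝ)) * T ≤ (1 - 2 / (m : ℝ)) * (T * (1 - 1 / m)) := by
    have : (1 - 2 / (m : ℝ)) * (T * (1 - 1 / m)) = (1 - 3 / m) * T + 2 / (m : ℝ) ^ 2 * T := by
      field_simp
      ring
    rw [this]
    have : 0 ≤ 2 / (m : ℝ) ^ 2 * T := by positivity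
    linarith
  have h4 : 3 / (2 * (m : ℝ)) = 3 / m / 2 := by field_simp
  rw [hE', h4]
  nlinarith

theorem bddAbove_rev {n : ℕ} {D : (Fin n → ℝ) →₀ ℝ} (hD : IsDist D) :
    BddAbove {r | ∃ M : Mechanism (Fin n), M.Valid ∧ r = expect D (fun v => ∑ i, M.pay v i)} := by
  refine ⟨expect D (fun v => ∑ i, v i), ?_⟩
  rintro _ ⟨M, hM, rfl⟩
  unfold expect Finsupp.sum
  refine Finset.sum_le_sum fun v hv => ?_
  refine mul_le_mul_of_nonneg_left ?_ (hD.nonneg v)
  exact Finset.sum_le_sum fun i _ => hM.pay_le (hD.positive v hv) i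

theorem le_OPT_Bad (hl : 1 ≤ l) (hm : 3 ≤ m) : 5 / 2 - 3 / (2 * m) ≤ OPT (Bad l m) :=
  (good_lower hl hm).trans (le_csSup (bddAbove_rev (isDist_Bad hm)) ⟨_, good_valid, rfl⟩)

/-! ### The lookahead mechanism on the bad distribution -/

variable (l) in
/-- all bidders but the last one -/
def K0 : Finset (Fin (l + 2)) := Finset.univ.erase (Fin.last (l + 1))

theorem top_val (hm : 3 ≤ m) (ω : (Fin l → Fin m) × Bool) : top (l + 1) (val ω) = K0 l := by
  classical
  have hgt : ∀ j : Fin (l + 2), j ≠ Fin.last (l + 1) → 1 < val ω j := by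
    intro j hj
    obtain ⟨i, rfl⟩ := Fin.exists_castSucc_eq.2 hj
    rw [val_castSucc]
    exact one_lt_prof hm _ _ _
  ext i
  unfold top K0
  rw [Finset.mem_filter, Finset.mem_erase]
  by_cases hi : i = Fin.last (l + 1)
  · subst hi
    simp only [Finset.mem_univ, true_and, ne_eq, not_true_eq_false, false_and, iff_false, not_lt]
    have h1 : Finset.univ.erase (Fin.last (l + 1)) ⊆
        Finset.univ.filter fun j => Before (val ω) j (Fin.last (l + 1)) := by
      intro j hj
      rw [Finset.mem_filter]
      refine ⟨Finset.mem_univ _, Or.inl ?_⟩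
      rw [val_last]
      exact hgt j (Finset.ne_of_mem_erase hj)
    have h2 := Finset.card_le_card h1
    rw [Finset.card_erase_of_mem (Finset.mem_univ _)] at h2
    simpa using h2
  · simp only [Finset.mem_univ, true_and, ne_eq, hi, not_false_eq_true, and_true, iff_true]
    have h1 : (Finset.univ.filter fun j => Before (val ω) j i) ⊆
        (Finset.univ.erase (Fin.last (l + 1))).erase i := by
      intro j hj
      have hB := (Finset.mem_filter.1 hj).2
      rw [Finset.mem_erase, Finset.mem_erase]
      refine ⟨?_, ?_, Finset.mem_univ _⟩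
      · rintro rfl
        rcases hB with h | h
        · exact lt_irrefl _ h
        · exact lt_irrefl _ h.2
      · rintro rfl
        have h3 := hgt i hi
        rcases hB with h | h
        · rw [val_last] at h; linarith
        · rw [val_last] at h; linarith [h.1]
    have h2 := Finset.card_le_card h1
    rw [Finset.card_erase_of_mem (Finset.mem_erase.2 ⟨hi, Finset.mem_univ _⟩),
      Finset.card_erase_of_mem (Finset.mem_univ _)] at h2
    simp only [Finset.card_univ, Fintype.card_fin] at h2
    omega

variable (l) in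
/-- the bidders of `K0` are numbered by `Fin (l + 1)` -/
def numb : {i // i ∈ K0 l} ≃ Fin (l + 1) where
  toFun k := Fin.castPred k.1 (Finset.ne_of_mem_erase k.2)
  invFun i := ⟨i.castSucc, Finset.mem_erase.2 ⟨(Fin.castSucc_lt_last _).ne, Finset.mem_univ _⟩⟩
  left_inv k := by simp
  right_inv i := by simp

/-- renumbering of the bidders -/
def renumber {ι κ : Type} (e : ι ≃ κ) (M : Mechanism ι) : Mechanism κ where
  alloc u i := M.alloc (u ∘ e) (e.symm i)
  pay u i := M.pay (u ∘ e) (e.symm i)

theorem renumber_valid {ι κ : Type} [Fintype ι] [DecidableEq ι] [Fintype κ] [DecidableEq κ]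
    (e : ι ≃ κ) {M : Mechanism ι} (hM : M.Valid) : (renumber e M).Valid where
  alloc_nonneg v hv i := hM.alloc_nonneg _ (fun _ => hv _) _
  alloc_sum v hv := by
    have := hM.alloc_sum (v ∘ e) (fun _ => hv _)
    rwa [← e.symm.sum_comp] at this
  truthful v hv i t ht := by
    have := hM.truthful (v ∘ e) (fun _ => hv _) (e.symm i) t ht
    simp only [renumber]
    rw [Function.update_comp_equiv]
    simpa using this
  rational v hv i := by
    have := hM.rational (v ∘ e) (fun _ => hv _) (e.symm i)
    simpa [renumber] using this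

theorem sum_K0 (M : Mechanism {i // i ∈ K0 l}) (ω : (Fin l → Fin m) × Bool) :
    ∑ i : {i // i ∈ K0 l}, M.pay (fun i => val ω i) i
      = ∑ i, (renumber (numb l) M).pay (prof (top1 m ω.2) ω.1) i := by
  simp only [renumber]
  rw [(numb l).symm.sum_comp (fun i => M.pay (prof (top1 m ω.2) ω.1 ∘ numb l) i)]
  have : (fun i : {i // i ∈ K0 l} => val ω i) = prof (top1 m ω.2) ω.1 ∘ numb l := by
    funext k
    have h1 : (k : Fin (l + 2)) = ((numb l) k).castSucc :=
      (Fin.castSucc_castPred k.1 (Finset.ne_of_mem_erase k.2)).symm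
    rw [h1, val_castSucc]
    rfl
  rw [this]

theorem lookahead_le (hm : 3 ≤ m)
    (A : (K : Finset (Fin (l + 2))) → ({j // j ∉ K} → ℝ) → Mechanism {i // i ∈ K})
    (hA : ∀ K u, (A K u).Valid) :
    lookaheadRev (l + 1) (Bad l m) A ≤ 2 + (2 * l + 6) / m := by
  unfold lookaheadRev
  rw [expect_Bad]
  have h1 : ∀ ω : (Fin l → Fin m) × Bool,
      ∑ i : {i // i ∈ top (l + 1) (val ω)},
        (A (top (l + 1) (val ω)) (fun j => val ω j)).pay (fun i => val ω i) i
      = ∑ i, (renumber (numb l) (A (K0 l) (fun _ => 1))).pay (prof (top1 m ω.2) ω.1) i := by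
    intro ω
    rw [← sum_K0]
    have h2 : ∀ K : Finset (Fin (l + 2)), K = K0 l →
        ∑ i : {i // i ∈ K}, (A K (fun j => val ω j)).pay (fun i => val ω i) i
        = ∑ i : {i // i ∈ K0 l}, (A (K0 l) (fun _ => 1)).pay (fun i => val ω i) i := by
      rintro K rfl
      have h3 : (fun j : {j // j ∉ K0 l} => val ω j) = fun _ => 1 := by
        funext j
        have h4 : (j : Fin (l + 2)) = Fin.last (l + 1) := by
          by_contra hne
          exact j.2 (Finset.mem_erase.2 ⟨hne, Finset.mem_univ _⟩)
        rw [h4, val_last]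
      rw [h3]
    exact h2 _ (top_val hm ω)
  simp only [h1]
  exact upper hm _ (renumber_valid _ (hA _ _))

end bad

/-- There is an optimal rule for every distribution. -/
theorem exists_isLookahead {n : ℕ} {D : (Fin n → ℝ) →₀ ℝ} (hD : IsDist D) :
    ∃ A : (K : Finset (Fin n)) → ({j // j ∉ K} → ℝ) → Mechanism {i // i ∈ K},
      IsLookahead D A := by
  classical
  have h : ∀ (K : Finset (Fin n)) (u : {j // j ∉ K} → ℝ), ∃ M : Mechanism {i // i ∈ K},
      M.Valid ∧ ∀ N : Mechanism {i // i ∈ K}, N.Valid → revOn D K u N ≤ revOn D K u M := by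
    intro K u
    obtain ⟨M, hM, hmax⟩ := exists_optimal (ι := {i // i ∈ K}) D.support
      (fun v => if Event K u v then D v else 0)
      (fun v _ => by split_ifs; exacts [hD.nonneg v, le_rfl])
      (fun v i => v i) (fun v hv _ i => hD.positive v hv i)
    refine ⟨M, hM, fun N hN => ?_⟩
    have h1 := hmax N hN
    have h2 : ∀ M : Mechanism {i // i ∈ K}, revOn D K u M
        = ∑ v ∈ D.support, (if Event K u v then D v else 0) *
          ∑ i : {i // i ∈ K}, M.pay (fun i => v i) i := by
      intro M
      unfold revOn expect Finsupp.sum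
      refine Finset.sum_congr rfl fun v _ => ?_
      by_cases hE : Event K u v
      · simp only [if_pos hE]
      · simp only [if_neg hE, mul_zero, zero_mul]
    rw [h2, h2]
    exact h1
  choose A hA using h
  exact ⟨A, fun K u => hA K u⟩

/-- No number above `4/5` is a lower bound of all quotients. -/
theorem bound {k : ℕ} (hk : 2 ≤ k) {c : ℝ} (hc : ∀ q ∈ ratios k, c ≤ q) : c ≤ 4 / 5 := by
  obtain ⟨l, rfl⟩ : ∃ l, k = l + 1 := ⟨k - 1, by omega⟩
  have hl : 1 ≤ l := by omega
  by_contra hcon
  push Not at hcon
  obtain ⟨m0, hm0⟩ := exists_nat_gt ((3 * c / 2 + 2 * l + 6) / (5 / 2 * c - 2))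
  set m := max m0 3 with hmdef
  have hm : 3 ≤ m := le_max_right _ _
  have hm3 : (3 : ℝ) ≤ m := by exact_mod_cast hm
  have hmpos : (0 : ℝ) < m := by linarith
  have hmm : (3 * c / 2 + 2 * l + 6) / (5 / 2 * c - 2) < m :=
    hm0.trans_le (by exact_mod_cast le_max_left _ _)
  have hD := isDist_Bad (l := l) hm
  obtain ⟨A, hA⟩ := exists_isLookahead hD
  have hO := le_OPT_Bad hl hm
  have h3m : 3 / (2 * (m : ℝ)) ≤ 1 / 2 := by
    rw [div_le_div_iff₀ (by positivity) (by norm_num)]; linarith
  have hOpos : 0 < OPT (Bad l m) := by linarith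
  have h1 := hc _ ⟨l + 2, Bad l m, A, hD, hOpos, hA, rfl⟩
  rw [le_div_iff₀ hOpos] at h1
  have h2 := lookahead_le hm A (fun K u => (hA K u).1)
  have hcpos : 0 < c := by linarith
  have h3 : c * (5 / 2 - 3 / (2 * m)) ≤ 2 + (2 * l + 6) / m :=
    ((mul_le_mul_of_nonneg_left hO hcpos.le).trans h1).trans h2
  rw [div_lt_iff₀ (by linarith)] at hmm
  have h4 : m * (c * (5 / 2 - 3 / (2 * m))) ≤ m * (2 + (2 * l + 6) / m) :=
    mul_le_mul_of_nonneg_left h3 hmpos.le
  have h5 : m * (c * (5 / 2 - 3 / (2 * (m : ℝ)))) = 5 / 2 * c * m - 3 * c / 2 := by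
    field_simp
  have h6 : (m : ℝ) * (2 + (2 * l + 6) / m) = 2 * m + (2 * l + 6) := by
    field_simp
  rw [h5, h6] at h4
  linarith

theorem rho_le {k : ℕ} (hk : 2 ≤ k) : rho k ≤ ((4 / 5 : ℝ) : EReal) := by
  by_contra hcon
  rw [not_le] at hcon
  obtain ⟨c, h1, h2⟩ := EReal.lt_iff_exists_real_btwn.1 hcon
  have h3 : c ≤ 4 / 5 := by
    refine bound hk fun q hq => ?_
    have h4 : rho k ≤ (q : EReal) := iInf₂_le q hq
    exact EReal.coe_le_coe_iff.1 (h2.le.trans h4)
  have h5 : (4 / 5 : ℝ) < c := EReal.coe_lt_coe_iff.1 h1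
  linarith

/-- For every `k ≥ 2` the approximation ratio of the `k`-lookahead mechanism is at most `4/5`; in
particular it does not tend to one. -/
theorem result :
    (∀ k : ℕ, 2 ≤ k → rho k ≤ ((4 / 5 : ℝ) : EReal)) ∧ ¬ Tendsto rho atTop (𝓝 1) := by
  refine ⟨fun k hk => rho_le hk, fun h => ?_⟩
  have h1 : (1 : EReal) ≤ ((4 / 5 : ℝ) : EReal) :=
    le_of_tendsto h (Filter.eventually_atTop.2 ⟨2, fun k hk => rho_le hk⟩)
  have h2 : (1 : ℝ) ≤ 4 / 5 := by
    rw [← EReal.coe_one] at h1
    exact EReal.coe_le_coe_iff.1 h1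
  norm_num at h2

end Pool.Agent.Results.MP_0f9109_lc.LookaheadRatio
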