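import Pool.Agent.Run7.h626.RQ.V

/-!
# Unique factorisation for the radicands `n² + r`, `r ∣ 4 n`, with `d ≡ 2, 3 (mod 4)`

Let `d > 1` be squarefree with `d ≡ 2` or `3 (mod 4)`, and suppose that `d = n² + r` with
`n ≥ 1` and `r ∣ 4 n` (extended Richaud-Degert type). The ring of integers of `ℚ(√d)` is a unique
factorisation domain if and only if `d` is one of the fourteen numbers
`2, 3, 6, 7, 11, 14, 23, 38, 47, 62, 83, 167, 227, 398`.
-/

namespace Pool.Agent.Results.MP_321647_nt.RichaudDegert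

open NumberField Module

theorem classNumber_of_mem (d : ℕ) (h : d ∈ Run7.h626.RQ.L14) (K : Type*) [Field K]
    [NumberField K] (hK : finrank ℚ K = 2) (x : K) (hx : x ^ 2 = (d : K)) :
    NumberField.classNumber K = 1 := by
  simp only [Run7.h626.RQ.L14, List.mem_cons, List.mem_nil_iff, or_false] at h
  rcases h with rfl | rfl | rfl | rfl | rfl | rfl | rfl | rfl | rfl | rfl | rfl | rfl | rfl | rfl
  · exact Run7.h626.RQ.cl_2 hK hx
  · exact Run7.h626.RQ.cl_3 hK hx
  · exact Run7.h626.RQ.cl_6 hK hx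
  · exact Run7.h626.RQ.cl_7 hK hx
  · exact Run7.h626.RQ.cl_11 hK hx
  · exact Run7.h626.RQ.cl_14 hK hx
  · exact Run7.h626.RQ.cl_23 hK hx
  · exact Run7.h626.RQ.cl_38 hK hx
  · exact Run7.h626.RQ.cl_47 hK hx
  · exact Run7.h626.RQ.cl_62 hK hx
  · exact Run7.h626.RQ.cl_83 hK hx
  · exact Run7.h626.RQ.cl_167 hK hx
  · exact Run7.h626.RQ.cl_227 hK hx
  · exact Run7.h626.RQ.cl_398 hK hx

theorem result (d : ℕ) (hsf : Squarefree d) (hd1 : 1 < d) (hd4 : d % 4 = 2 ∨ d % 4 = 3)
    (K : Type*) [Field K] [NumberField K] (hK : finrank ℚ K = 2)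
    (x : K) (hx : x ^ 2 = (d : K)) :
    ((∃ (n : ℕ) (r : ℤ), 1 ≤ n ∧ r ∣ 4 * (n : ℤ) ∧ (d : ℤ) = (n : ℤ) ^ 2 + r) ∧
        UniqueFactorizationMonoid (𝓞 K)) ↔
      d ∈ ([2, 3, 6, 7, 11, 14, 23, 38, 47, 62, 83, 167, 227, 398] : List ℕ) := by
  constructor
  · rintro ⟨⟨n, r, hn, hr, hd⟩, hufd⟩
    have hcl : NumberField.classNumber K = 1 := by
      rw [NumberField.classNumber_eq_one_iff]
      exact IsPrincipalIdealRing.of_isDedekindDomain_of_uniqueFactorizationMonoid _
    exact Run7.h626.RQ.erd_even hsf hd1 hd4 hn hr hd hK hx hcl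
  · intro h
    constructor
    · simp only [List.mem_cons, List.mem_nil_iff, or_false] at h
      rcases h with rfl | rfl | rfl | rfl | rfl | rfl | rfl | rfl | rfl | rfl | rfl | rfl | rfl |
        rfl
      · exact ⟨1, 1, by norm_num, by norm_num, by norm_num⟩
      · exact ⟨1, 2, by norm_num, by norm_num, by norm_num⟩
      · exact ⟨2, 2, by norm_num, by norm_num, by norm_num⟩
      · exact ⟨3, -2, by norm_num, ⟨-6, by norm_num⟩, by norm_num⟩
      · exact ⟨3, 2, by norm_num, by norm_num, by norm_num⟩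
      · exact ⟨4, -2, by norm_num, ⟨-8, by norm_num⟩, by norm_num⟩
      · exact ⟨5, -2, by norm_num, ⟨-10, by norm_num⟩, by norm_num⟩
      · exact ⟨6, 2, by norm_num, by norm_num, by norm_num⟩
      · exact ⟨7, -2, by norm_num, ⟨-14, by norm_num⟩, by norm_num⟩
      · exact ⟨8, -2, by norm_num, ⟨-16, by norm_num⟩, by norm_num⟩
      · exact ⟨9, 2, by norm_num, by norm_num, by norm_num⟩
      · exact ⟨13, -2, by norm_num, ⟨-26, by norm_num⟩, by norm_num⟩
      · exact ⟨15, 2, by norm_num, by norm_num, by norm_num⟩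
      · exact ⟨20, -2, by norm_num, ⟨-40, by norm_num⟩, by norm_num⟩
    · have hcl := classNumber_of_mem d h K hK x hx
      rw [NumberField.classNumber_eq_one_iff] at hcl
      infer_instance

end Pool.Agent.Results.MP_321647_nt.RichaudDegert
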